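import Pool.Agent.Helper95.AF.Defs

/-! # Project AF, block P2: peeling -/

set_option autoImplicit false
open MeasureTheory Real Set Filter Topology
open scoped ENNReal

namespace Pool.Agent.Helper95.AF

/-- one step: lower the index of the window `l` by one -/
private theorem peel_step {X T : Type*} [MeasurableSpace X] [MeasurableSpace T] {μ : Measure X} {τ : Measure T}
    [IsProbabilityMeasure τ] {M J : ℕ} {φ : Fin M → ℕ → X → ℝ≥0∞} (hφ : ∀ l j, Measurable (φ l j))
    {S : Fin M → ℕ → X → T → X} (hS : ∀ l j, Measurable fun p : X × T => S l j p.1 p.2) {C : ℝ≥0∞} {Z : Set X}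
    (hZ : ∀ᵐ x ∂μ, x ∈ Z)
    (h1 : ∀ (l : Fin M) (j : ℕ), j < J → ∀ G : X → ℝ≥0∞, Measurable G →
      ∫⁻ x, G x ∂μ ≤ C * ∫⁻ x, ∫⁻ t, G (S l j x t) ∂τ ∂μ)
    (h2 : ∀ l l' : Fin M, l' ≠ l → ∀ j < J, ∀ i ≤ J, ∀ x ∈ Z, ∀ t, φ l' i (S l j x t) = φ l' i x)
    (h3 : ∀ (l : Fin M), ∀ j < J, ∀ x ∈ Z, ∫⁻ t, φ l (j + 1) (S l j x t) ∂τ ≤ φ l j x)
    (g : Fin M → ℕ) (hg : ∀ l, g l ≤ J) (l : Fin M) (j : ℕ) (hj : g l = j + 1) :
    ∫⁻ x, ∏ i, φ i (g i) x ∂μ ≤ C * ∫⁻ x, ∏ i, φ i (Function.update g l j i) x ∂μ := by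
  have hjJ : j < J := by have := hg l; omega
  have hm : Measurable fun x => ∏ i, φ i (g i) x := Finset.measurable_prod _ fun i _ => hφ i (g i)
  refine (h1 l j hjJ _ hm).trans ?_
  refine mul_le_mul_right (lintegral_mono_ae ?_) C
  filter_upwards [hZ] with x hx
  have e1 : ∀ t, ∏ i, φ i (g i) (S l j x t) =
      (∏ i ∈ Finset.univ.erase l, φ i (g i) x) * φ l (j + 1) (S l j x t) := by
    intro t
    rw [← Finset.mul_prod_erase Finset.univ _ (Finset.mem_univ l), mul_comm, hj]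
    congr 1
    refine Finset.prod_congr rfl fun i hi => ?_
    exact h2 l i (Finset.ne_of_mem_erase hi) j hjJ (g i) (hg i) x hx t
  have e2 : ∏ i, φ i (Function.update g l j i) x = (∏ i ∈ Finset.univ.erase l, φ i (g i) x) * φ l j x := by
    rw [← Finset.mul_prod_erase Finset.univ _ (Finset.mem_univ l), mul_comm, Function.update_self]
    congr 1
    refine Finset.prod_congr rfl fun i hi => ?_
    rw [Function.update_of_ne (Finset.ne_of_mem_erase hi)]
  simp only [e1]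
  rw [e2, lintegral_const_mul]
  · gcongr
    exact h3 l j hjJ x hx
  · exact (hφ l (j + 1)).comp ((hS l j).comp (measurable_const.prodMk measurable_id))

/-- **P2**: peeling -/
theorem peel2 {X T : Type*} [MeasurableSpace X] [MeasurableSpace T] {μ : Measure X} {τ : Measure T}
    [IsProbabilityMeasure τ] {M J : ℕ} {φ : Fin M → ℕ → X → ℝ≥0∞} (hφ : ∀ l j, Measurable (φ l j))
    {S : Fin M → ℕ → X → T → X} (hS : ∀ l j, Measurable fun p : X × T => S l j p.1 p.2) {C : ℝ≥0∞} {Z : Set X}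
    (hZ : ∀ᵐ x ∂μ, x ∈ Z)
    (h1 : ∀ (l : Fin M) (j : ℕ), j < J → ∀ G : X → ℝ≥0∞, Measurable G →
      ∫⁻ x, G x ∂μ ≤ C * ∫⁻ x, ∫⁻ t, G (S l j x t) ∂τ ∂μ)
    (h2 : ∀ l l' : Fin M, l' ≠ l → ∀ j < J, ∀ i ≤ J, ∀ x ∈ Z, ∀ t, φ l' i (S l j x t) = φ l' i x)
    (h3 : ∀ (l : Fin M), ∀ j < J, ∀ x ∈ Z, ∫⁻ t, φ l (j + 1) (S l j x t) ∂τ ≤ φ l j x) :
    ∫⁻ x, ∏ l, φ l J x ∂μ ≤ C ^ (M * J) * ∫⁻ x, ∏ l, φ l 0 x ∂μ := by
  have key : ∀ (k : ℕ) (g : Fin M → ℕ), (∀ l, g l ≤ J) → ∑ l, g l = k →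
      ∫⁻ x, ∏ i, φ i (g i) x ∂μ ≤ C ^ k * ∫⁻ x, ∏ i, φ i 0 x ∂μ := by
    intro k
    induction k with
    | zero =>
      intro g _ hs
      have h0 : ∀ i, g i = 0 := fun i => (Finset.sum_eq_zero_iff.1 hs) i (Finset.mem_univ i)
      simp only [h0, pow_zero, one_mul, le_refl]
    | succ k ih =>
      intro g hg hs
      obtain ⟨l, hl⟩ : ∃ l, g l ≠ 0 := by
        by_contra hcon
        push Not at hcon
        rw [Finset.sum_eq_zero (fun i _ => hcon i)] at hs
        omega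
      obtain ⟨j, hj⟩ := Nat.exists_eq_succ_of_ne_zero hl
      refine (peel_step hφ hS hZ h1 h2 h3 g hg l j hj).trans ?_
      have hg' : ∀ i, Function.update g l j i ≤ J := by
        intro i
        by_cases hi : i = l
        · subst hi
          rw [Function.update_self]
          have := hg i
          omega
        · rw [Function.update_of_ne hi]
          exact hg i
      have hs' : ∑ i, Function.update g l j i = k := by
        have e3 : ∑ i, g i = g l + ∑ i ∈ Finset.univ.erase l, g i :=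
          (Finset.add_sum_erase Finset.univ g (Finset.mem_univ l)).symm
        have e4 : ∑ i, Function.update g l j i = j + ∑ i ∈ Finset.univ.erase l, g i := by
          rw [← Finset.add_sum_erase Finset.univ _ (Finset.mem_univ l), Function.update_self]
          congr 1
          refine Finset.sum_congr rfl fun i hi => ?_
          rw [Function.update_of_ne (Finset.ne_of_mem_erase hi)]
        rw [e4]
        rw [e3, hj] at hs
        omega
      calc C * ∫⁻ x, ∏ i, φ i (Function.update g l j i) x ∂μ ≤ C * (C ^ k * ∫⁻ x, ∏ i, φ i 0 x ∂μ) := by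
            gcongr
            exact ih _ hg' hs'
        _ = C ^ (k + 1) * ∫⁻ x, ∏ i, φ i 0 x ∂μ := by ring
  have h := key (M * J) (fun _ => J) (fun _ => le_rfl) (by simp)
  exact h

end Pool.Agent.Helper95.AF
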