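import Pool.Agent.Helper95.AF.Defs
import Pool.Agent.Helper6.AF.RR
import Pool.Agent.Helper46.QP.Link

/-! # Project AF: the derivative of the lifted orbit and its exponent -/

set_option autoImplicit false
open MeasureTheory Real Set Filter Topology

namespace Pool.Agent.Helper95.AF

open Pool.Agent.Helper18.UC (nn rep toT clm clm_apply norm_clm_le nn_le_clm)
open Pool.Agent.Helper46.QP (TT Td)
open Pool.Agent.Helper82.AN (sq)

variable {d : ℕ}

private lemma clm_one95 : clm 1 = ContinuousLinearMap.id ℝ (ℝ × ℝ) := by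
  refine ContinuousLinearMap.ext fun v => ?_
  rw [clm_apply]
  simp

private lemma clm_mul95 (B C : Matrix (Fin 2) (Fin 2) ℝ) : clm (B * C) = (clm B).comp (clm C) := by
  refine ContinuousLinearMap.ext fun v => ?_
  rw [ContinuousLinearMap.comp_apply, clm_apply, clm_apply, clm_apply]
  refine Prod.ext ?_ ?_
  · simp only [Matrix.mul_apply, Fin.sum_univ_two]
    ring
  · simp only [Matrix.mul_apply, Fin.sum_univ_two]
    ring

theorem st_der (a β : ℝ) (q : ℝ × ℝ) : HasFDerivAt (st a β) (clm (mt a q.1)) q := by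
  have h1 : HasFDerivAt (fun q : ℝ × ℝ => q.1) (ContinuousLinearMap.fst ℝ ℝ ℝ) q := hasFDerivAt_fst
  have h2 : HasFDerivAt (fun q : ℝ × ℝ => q.2) (ContinuousLinearMap.snd ℝ ℝ ℝ) q := hasFDerivAt_snd
  have h3 := ((((h1.const_mul 2).sub h2).add (((h1.const_mul (2 * π)).sin).const_mul a)).add_const β).prodMk h1
  refine h3.congr_fderiv ?_
  refine ContinuousLinearMap.ext fun v => ?_
  rw [clm_apply]
  refine Prod.ext ?_ ?_
  · simp [mt]
    ring
  · simp [mt]

theorem po_der (a : ℝ) (b : ℕ → ℝ) (n : ℕ) (q : ℝ × ℝ) : HasFDerivAt (po a b n) (clm (pM a b n q)) q := by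
  induction n with
  | zero =>
    rw [show pM a b 0 q = 1 from rfl, clm_one95]
    exact hasFDerivAt_id q
  | succ n ih =>
    rw [show pM a b (n + 1) q = mt a (po a b n q).1 * pM a b n q from rfl, clm_mul95]
    exact (st_der a (b n) (po a b n q)).comp q ih

theorem po_lim {a : ℝ} {b : ℕ → ℝ} {q : ℝ × ℝ} {L : ℝ}
    (h : Tendsto (fun n : ℕ => Real.log (nn (pM a b n q)) / n) atTop (𝓝 L)) :
    Tendsto (fun n : ℕ => Real.log ‖fderiv ℝ (po a b n) q‖ / n) atTop (𝓝 L) := by
  have h2 : Tendsto (fun n : ℕ => Real.log (nn (pM a b n q)) / n - Real.log 2 / n) atTop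
      (𝓝 (L - 0)) := h.sub (tendsto_const_div_atTop_nhds_zero_nat _)
  rw [sub_zero] at h2
  have hpos : ∀ n, 0 < nn (pM a b n q) := fun n => by
    have := Pool.Agent.Helper6.AF.one_le_nn a b n q
    linarith
  have key : ∀ n, nn (pM a b n q) / 2 ≤ ‖fderiv ℝ (po a b n) q‖ ∧ ‖fderiv ℝ (po a b n) q‖ ≤ nn (pM a b n q) := by
    intro n
    rw [(po_der a b n q).fderiv]
    have h1 := nn_le_clm (pM a b n q)
    exact ⟨by linarith, norm_clm_le (pM a b n q)⟩
  refine tendsto_of_tendsto_of_tendsto_of_le_of_le h2 h (fun n => ?_) (fun n => ?_)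
  · change Real.log (nn (pM a b n q)) / n - Real.log 2 / n ≤ Real.log ‖fderiv ℝ (po a b n) q‖ / n
    rw [← sub_div]
    refine div_le_div_of_nonneg_right ?_ (Nat.cast_nonneg n)
    rw [← Real.log_div (hpos n).ne' (by norm_num)]
    exact Real.log_le_log (div_pos (hpos n) (by norm_num)) (key n).1
  · change Real.log ‖fderiv ℝ (po a b n) q‖ / n ≤ Real.log (nn (pM a b n q)) / n
    refine div_le_div_of_nonneg_right ?_ (Nat.cast_nonneg n)
    exact Real.log_le_log (lt_of_lt_of_le (div_pos (hpos n) (by norm_num)) (key n).1) (key n).2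

theorem pM_tor (a : ℝ) (b : ℕ → ℝ) (n : ℕ) (q : ℝ × ℝ) : pM a b n (rep (toT q)) = pM a b n q := by
  obtain ⟨u, w, h⟩ := Pool.Agent.Helper18.UC.rep_toT q
  rw [h]
  exact Pool.Agent.Helper6.AF.pM_shift a b n q u w

/-- the exponent of the lifts -/
theorem lim_fd {α : Td d} {a : ℝ} {b : Td d → ℝ} {Λ : ℝ}
    (h : ∀ᵐ p : Td d × TT, Tendsto (fun n : ℕ => Real.log (gA α a b n p) / n) atTop (𝓝 Λ)) :
    ∀ᵐ θ : Td d, ∀ᵐ z : ℝ × ℝ,
      Tendsto (fun n : ℕ => Real.log ‖fderiv ℝ (po a (sq α b θ) n) z‖ / n) atTop (𝓝 Λ) := by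
  have h2 := Measure.ae_ae_of_ae_prod h
  filter_upwards [h2] with θ hθ
  filter_upwards [Pool.Agent.Helper46.QP.ae_tor hθ] with z hz
  refine po_lim (hz.congr fun n => ?_)
  show Real.log (nn (pM a (sq α b θ) n (rep (toT z)))) / n = _
  rw [pM_tor]

end Pool.Agent.Helper95.AF
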