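import Pool.Agent.Helper82.AN.Defs
import Pool.Agent.Helper18.UC.Cell

/-! # Project AF (MP_9ee088_an): the standard map with an additive quasi-periodic force. Definitions

The fibre maps are `S_a` followed by the translation by `b j` of the first coordinate; `a` does not depend on the time. -/

set_option autoImplicit false
open MeasureTheory Real Set Filter
open scoped ENNReal

namespace Pool.Agent.Helper95.AF

open Pool.Agent.Helper18.UC (nn LL sqo rep toT)
open Pool.Agent.Helper46.QP (TT Td)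
open Pool.Agent.Helper82.AN (Ik Ow lawL wt bas eta Hw sq SepR)

variable {d : ℕ}

/-! ### the plane maps -/

/-- `S_a` followed by the translation by `β` of the first coordinate -/
noncomputable def st (a β : ℝ) (q : ℝ × ℝ) : ℝ × ℝ := (2 * q.1 - q.2 + a * Real.sin (2 * π * q.1) + β, q.1)

/-- the plane map of the first `n` steps -/
noncomputable def po (a : ℝ) (b : ℕ → ℝ) : ℕ → ℝ × ℝ → ℝ × ℝ
  | 0, q => q
  | n + 1, q => st a (b n) (po a b n q)

/-- the derivative matrix of one step -/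
noncomputable def mt (a x : ℝ) : Matrix (Fin 2) (Fin 2) ℝ := !![2 + 2 * π * a * Real.cos (2 * π * x), -1; 1, 0]

/-- the derivative matrix of the first `n` steps -/
noncomputable def pM (a : ℝ) (b : ℕ → ℝ) : ℕ → ℝ × ℝ → Matrix (Fin 2) (Fin 2) ℝ
  | 0, _ => 1
  | n + 1, q => mt a (po a b n q).1 * pM a b n q

/-- the sequence which starts at time `m` -/
def shb (b : ℕ → ℝ) (m j : ℕ) : ℝ := b (j + m)

/-- the sequence read backwards from time `N` -/
def rvb (b : ℕ → ℝ) (N j : ℕ) : ℝ := b (N - 1 - j)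

/-! ### the torus maps -/

/-- `S_a` followed by a translation, on the torus -/
noncomputable def tst (a β : ℝ) (z : TT) : TT :=
  (z.1 + z.1 - z.2 + ((a * (fourier 1 z.1 : ℂ).im + β : ℝ) : UnitAddCircle), z.1)

/-- the skew product over the rotation by `α` -/
noncomputable def Fa (α : Td d) (a : ℝ) (b : Td d → ℝ) (p : Td d × TT) : Td d × TT := (p.1 + α, tst a (b p.1) p.2)

/-- growth along the fibres (`sq α b θ j = b (θ + j α)`) -/
noncomputable def gA (α : Td d) (a : ℝ) (b : Td d → ℝ) (n : ℕ) (p : Td d × TT) : ℝ :=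
  nn (pM a (sq α b p.1) n (rep p.2))

/-! ### growth part -/

/-- size of a vector -/
def nv (V : Fin 2 → ℝ) : ℝ := |V 0| + |V 1|

/-- `x ^ (-p)`, infinite for `x = 0` -/
noncomputable def ip (p x : ℝ) : ℝ≥0∞ := ENNReal.ofReal x ^ (-p)

/-- the points with growth less than `exp r` -/
noncomputable def bad (a : ℝ) (b : ℕ → ℝ) (n : ℕ) (r : ℝ) : Set (ℝ × ℝ) := {z | Real.log (nn (pM a b n z)) < r}

/-- the density of `bad` is at most `δ` in every square of side `ρ` -/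
def Den (a : ℝ) (b : ℕ → ℝ) (n : ℕ) (ρ δ r : ℝ) : Prop :=
  ∀ c : ℝ × ℝ, volume (bad a b n r ∩ sqo c ρ) ≤ ENNReal.ofReal (δ * ρ ^ 2)

/-- the growth which holds outside density `δ` in every square of side `ρ` (cut at `cap`) -/
noncomputable def rr (a : ℝ) (n : ℕ) (ρ δ cap : ℝ) (b : ℕ → ℝ) : ℝ := sSup {r : ℝ | 0 ≤ r ∧ r ≤ cap ∧ Den a b n ρ δ r}

/-- the uniform law on `[0, 1]` -/
noncomputable def un : Measure ℝ := volume.restrict (Icc 0 1)

/-- five independent uniform numbers -/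
noncomputable def un5 : Measure (Fin 5 → ℝ) := Measure.pi fun _ => un

/-- noise of size `s` at the times `m, .., m + 4` -/
noncomputable def up5 (b : ℕ → ℝ) (m : ℕ) (s : ℝ) (t : Fin 5 → ℝ) (j : ℕ) : ℝ :=
  b j + if h : m ≤ j ∧ j < m + 5 then s * t ⟨j - m, by omega⟩ else 0

/-- the force with parameters `U`: `∑ U (i + 1) e i + U 0 η` -/
noncomputable def frc (γ : ℝ) {k : ℕ} (e : Fin k → Td d → ℝ) (U : Fin (k + 1) → ℝ) (w : Ow d) (θ : Td d) : ℝ :=
  (∑ i : Fin k, U i.succ * e i θ) + U 0 * eta γ w θ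

/-- the bad event of the level step, `N = J (n + 5)` -/
def Bs (a : ℝ) (ρ δ cap ρ' δ' cap' : ℝ) (n J : ℕ) (y : ℝ) : Set (ℕ → ℝ) :=
  {b | rr a (J * (n + 5)) ρ' δ' cap' b < (∑ j ∈ Finset.range J, rr a n ρ δ cap (shb b (j * (n + 5) + 5))) - y}

/-- losses and exceptional measures -/
noncomputable def et (i : ℕ) : ℝ := 1 / (200 * 2 ^ i)

/-- exponents -/
noncomputable def pp : ℕ → ℝ
  | 0 => 1 / 20000
  | i + 1 => pp i * et i / 16

/-- the functional of the level `i`, `n` the length of the windows, `L` about `log |a|` -/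
noncomputable def Rl (a L : ℝ) (i n : ℕ) (b : ℕ → ℝ) : ℝ :=
  rr a n (Real.exp (-(pp i * n * L))) (Real.exp (-(2 * pp i * n * L))) (2 * n * L) b

/-- exceptional events with the margin `y` -/
def Ev0 (a L : ℝ) (n : ℕ) (y : ℝ) : Set (ℕ → ℝ) := {b | Rl a L 0 n b < (1 - et 0) * n * L - y}
def EvS (a L : ℝ) (i n J : ℕ) (y : ℝ) : Set (ℕ → ℝ) :=
  {b | Rl a L (i + 1) (J * (n + 5)) b <
    (∑ j ∈ Finset.range J, Rl a L i n (shb b (j * (n + 5) + 5))) - et i * (J * (n + 5) : ℕ) * L - y}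

/-- `α` is Diophantine -/
def DC (D τ : ℝ) (α : Td d) : Prop := ∀ j : ℕ, 1 ≤ j → D * (j : ℝ) ^ (-τ) ≤ ‖j • α‖

/-- Hoelder continuous -/
def Ho (f : Td d → ℝ) : Prop := ∃ K r : ℝ, 0 < r ∧ ∀ x y, |f x - f y| ≤ K * dist x y ^ r

/-- the box of parameters -/
def Bx (k : ℕ) (L : ℝ) (A : Set (Td d)) : Set (ℝ × (Fin (k + 1) → ℝ) × Td d) :=
  {u | Real.exp L ≤ |u.1| ∧ |u.1| ≤ Real.exp (L + 1) ∧ (∀ i, |u.2.1 i| ≤ Real.exp (L + 1)) ∧
    Real.exp (-((L + 1) / 4000)) ≤ |u.2.1 0| ∧ u.2.2 ∈ A}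

/-- **Interface**: growth `r θ` outside small sets of every fibre, with a large mean -/
def Lv (α : Td d) (a : ℝ) (b : Td d → ℝ) : Prop :=
  ∀ ε : ℝ, 0 < ε → ∀ n₀ : ℕ, ∃ N ≥ n₀, ∃ r : Td d → ℝ, Measurable r ∧ (∀ θ, 0 ≤ r θ) ∧ (∃ K, ∀ θ, r θ ≤ K) ∧
    (∀ θ, volume {z : TT | Real.log (gA α a b N (θ, z)) < r θ} ≤ ENNReal.ofReal ε) ∧
    15 / 16 * N * Real.log |a| ≤ ∫ θ, r θ

end Pool.Agent.Helper95.AF
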