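import Pool.Agent.Helper95.AF.Whole
import Pool.Agent.Helper5.AF.AllPar
import Pool.Agent.Helper83.AF.FX
import Pool.Agent.Helper82.AN.Eta

/-! # Project AF: all parameters at once, on the whole phase space -/

set_option autoImplicit false
open MeasureTheory Real Set Filter Topology
open scoped ENNReal

namespace Pool.Agent.Helper95.AF

open Pool.Agent.Helper46.QP (TT Td)
open Pool.Agent.Helper82.AN (Ik Ow lawL wt bas eta Hw sq)

variable {d : ℕ}

theorem Ho.cont {f : Td d → ℝ} (h : Ho f) : Continuous f := by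
  obtain ⟨K, r, hr, h⟩ := h
  rw [continuous_iff_continuousAt]
  intro x
  rw [ContinuousAt, tendsto_iff_dist_tendsto_zero]
  have h1 : Tendsto (fun y => K * dist y x ^ r) (𝓝 x) (𝓝 0) := by
    have h2 : Tendsto (fun y : Td d => dist y x) (𝓝 x) (𝓝 0) := by
      have := (tendsto_id (x := 𝓝 x)).dist (tendsto_const_nhds (x := x))
      simpa using this
    have h3 := h2.rpow_const (p := r) (Or.inr hr.le)
    rw [Real.zero_rpow hr.ne'] at h3
    simpa using h3.const_mul K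
  exact squeeze_zero (fun _ => dist_nonneg) (fun y => h y x) h1

/-- **main theorem**: the force `∑ s i e i + q η`, all parameters at once -/
theorem final {γ τ : ℝ} (hd : 0 < d) (hγ : 0 < γ) (h1 : 1 / d ≤ τ) (h2 : τ * γ < 1) {k : ℕ} {e : Fin k → Td d → ℝ}
    (he : ∀ i, Ho (e i)) : ∀ᵐ w ∂lawL d, ∀ D : ℝ, 0 < D → ∃ A : ℝ, ∀ α : Td d,
      (∀ k : Fin d → ℤ, k ≠ 0 → ∑ m, k m • α m ≠ 0) → DC D τ α → ∀ (a q : ℝ) (s : Fin k → ℝ), A ≤ |a| →
      |a| ^ (-(1 / 4000 : ℝ)) ≤ |q| → |q| ≤ |a| → (∀ i, |s i| ≤ |a|) →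
      WholeA α a (fun θ => (∑ i, s i * e i θ) + q * eta γ w θ) := by
  obtain ⟨A₁, hA₁⟩ := whole_of fun d α hind a ha b hb hL lam hm hinv hl => Pool.Agent.Helper83.AF.fin_exp hind ha hb hL hm hinv hl
  filter_upwards [Pool.Agent.Helper5.AF.all_par hd hγ h1 h2 he, Pool.Agent.Helper82.AN.Hw_ae (d := d) hγ] with w h3 h4 D hD
  obtain ⟨A, -, hA⟩ := h3 D hD
  refine ⟨max A A₁, fun α hind hα a q s ha hq hq1 hs => ?_⟩
  have h5 := hA α a (Fin.cons q s) hα ((le_max_left _ _).trans ha) hq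
    (fun i => Fin.cases hq1 (fun j => hs j) i)
  have h6 : frc γ e (Fin.cons q s : Fin (k + 1) → ℝ) w = fun θ => (∑ i, s i * e i θ) + q * eta γ w θ := rfl
  rw [h6] at h5
  refine hA₁ d α hind a ((le_max_right _ _).trans ha) _ ?_ h5
  exact (continuous_finsetSum _ fun i _ => (he i).cont.const_mul _).add
    ((Pool.Agent.Helper82.AN.eta_cont h4).const_mul q)

end Pool.Agent.Helper95.AF
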