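import Pool.Agent.Helper95.AF.Fd
import Pool.Agent.Helper95.AF.Num
import Pool.Agent.Helper23.AF.EigOm
import Pool.Agent.Helper23.AF.SExpo
import Pool.Agent.Helper23.AF.STor

/-! # Project AF: from the interface `Lv` to the whole phase space -/

set_option autoImplicit false
open MeasureTheory Real Set Filter Topology

namespace Pool.Agent.Helper95.AF

open Pool.Agent.Helper18.UC (nn LL rep toT)
open Pool.Agent.Helper46.QP (TT Td)
open Pool.Agent.Helper82.AN (sq)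

variable {d : ℕ}

/-- the conclusion on the whole space -/
def WholeA (α : Td d) (a : ℝ) (b : Td d → ℝ) : Prop :=
  Ergodic (Fa α a b) volume ∧
    (∀ (ξ : ℂ) (h : Td d × TT → ℂ), Measurable h → (∀ᵐ p, h (Fa α a b p) = ξ * h p) →
      (∀ᵐ p, h p = 0) ∨ ∃ (k : Fin d → ℤ) (c : ℂ), fourier 1 (∑ m, k m • α m) = ξ ∧
        ∀ᵐ p : Td d × TT, h p = c * fourier 1 (∑ m, k m • p.1 m)) ∧
    ∃ Λ : ℝ, 15 / 16 * Real.log |a| ≤ Λ ∧ ∀ᵐ θ : Td d, ∀ᵐ z : ℝ × ℝ,
      Tendsto (fun n : ℕ => Real.log ‖fderiv ℝ (po a (sq α b θ) n) z‖ / n) atTop (𝓝 Λ)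

/-! ### links with the component part -/

/-- the parameters of the component part -/
noncomputable def pr (a : ℝ) (b : Td d → ℝ) (θ : Td d) : ℝ × ℝ := (a, b θ)

theorem Fs_pr (α : Td d) (a : ℝ) (b : Td d → ℝ) : Pool.Agent.Helper23.AF.Fs α (pr a b) = Fa α a b := by
  funext p
  refine Prod.ext rfl (Prod.ext ?_ rfl)
  show p.2.1 + p.2.1 - p.2.2 + ((((a : ℂ) * (fourier 1 p.2.1 : ℂ)).im : ℝ) : UnitAddCircle) +
    ((b p.1 : ℝ) : UnitAddCircle) = p.2.1 + p.2.1 - p.2.2 +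
      ((a * (fourier 1 p.2.1 : ℂ).im + b p.1 : ℝ) : UnitAddCircle)
  rw [Complex.im_ofReal_mul, AddCircle.coe_add, add_assoc]

theorem po_pr (a : ℝ) (b : ℕ → ℝ) (n : ℕ) (q : ℝ × ℝ) :
    Pool.Agent.Helper23.AF.po (fun j => (a, b j)) n q = po a b n q := by
  induction n with
  | zero => rfl
  | succ n ih =>
    show Pool.Agent.Helper23.AF.Fp (a, b n) (Pool.Agent.Helper23.AF.po (fun j => (a, b j)) n q) = st a (b n) (po a b n q)
    rw [ih]
    rfl

theorem pM_pr (a : ℝ) (b : ℕ → ℝ) (n : ℕ) (q : ℝ × ℝ) :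
    Pool.Agent.Helper23.AF.pM (fun j => (a, b j)) n q = pM a b n q := by
  induction n with
  | zero => rfl
  | succ n ih =>
    show Pool.Agent.Helper18.UC.A a (Pool.Agent.Helper23.AF.po (fun j => (a, b j)) n q) *
      Pool.Agent.Helper23.AF.pM (fun j => (a, b j)) n q = mt a (po a b n q).1 * pM a b n q
    rw [ih, po_pr]
    rfl

theorem gN_pr (α : Td d) (a : ℝ) (b : Td d → ℝ) (n : ℕ) (p : Td d × TT) :
    Pool.Agent.Helper23.AF.gN α (pr a b) n p = gA α a b n p := by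
  unfold Pool.Agent.Helper23.AF.gN gA
  rw [Pool.Agent.Helper23.AF.Mx_rep]
  have e : Pool.Agent.Helper23.AF.sq α (pr a b) p.1 = fun j => (a, sq α b p.1 j) := rfl
  rw [e, pM_pr]

/-- **from the interface to the whole space** -/
theorem whole_of (FX : ∀ (d : ℕ) (α : Td d), (∀ k : Fin d → ℤ, k ≠ 0 → ∑ m, k m • α m ≠ 0) → ∀ a : ℝ, 10 ≤ |a| →
      ∀ b : Td d → ℝ, Continuous b → Lv α a b → ∀ lam : Td d × TT → ℝ, Measurable lam →
      (∀ᵐ p, lam (Fa α a b p) = lam p) →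
      (∀ᵐ p, Tendsto (fun n : ℕ => Real.log (gA α a b n p) / n) atTop (𝓝 (lam p))) →
      ∀ᵐ p, 15 / 16 * Real.log |a| ≤ lam p) :
    ∃ A₁ : ℝ, ∀ (d : ℕ) (α : Td d), (∀ k : Fin d → ℤ, k ≠ 0 → ∑ m, k m • α m ≠ 0) → ∀ a : ℝ, A₁ ≤ |a| →
      ∀ b : Td d → ℝ, Continuous b → Lv α a b → WholeA α a b := by
  obtain ⟨A₂, hA₂⟩ := num_pr
  refine ⟨max 10 A₂, fun d α hind a ha b hb hL => ?_⟩
  have ha10 : 10 ≤ |a| := (le_max_left _ _).trans ha
  have hnum := hA₂ a ((le_max_right _ _).trans ha)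
  have hfm : Measurable (pr a b : Td d → ℝ × ℝ) := measurable_const.prodMk hb.measurable
  have hLL : ∀ θ, LL ((pr a b : Td d → ℝ × ℝ) θ).1 ≤ LL a := fun θ => le_rfl
  have hlog : 0 < Real.log |a| := Real.log_pos (by linarith)
  obtain ⟨lam, hlm, -, hli, hlt, hlo⟩ := Pool.Agent.Helper23.AF.ex_lam (α := α) hfm hLL
  have hlt' : ∀ᵐ p, Tendsto (fun n : ℕ => Real.log (gA α a b n p) / n) atTop (𝓝 (lam p)) := by
    filter_upwards [hlt] with p hp
    exact hp.congr fun n => by rw [gN_pr]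
  have hli' : ∀ᵐ p, lam (Fa α a b p) = lam p := by
    rw [← Fs_pr]
    exact hli
  have hfx := FX d α hind a ha10 b hb hL lam hlm hli' hlt'
  have hom : ∀ᵐ p, p ∈ Pool.Agent.Helper23.AF.om α (pr a b) (7 / 8 * Real.log |a|) := by
    filter_upwards [hfx, hlo (7 / 8 * Real.log |a|)] with p h1 h2
    rw [h2]
    linarith
  have heig : ∀ (ξ : ℂ) (h : Td d × TT → ℂ), Measurable h → (∀ᵐ p, h (Fa α a b p) = ξ * h p) →
      (∀ᵐ p, h p = 0) ∨ ∃ (k : Fin d → ℤ) (c : ℂ), fourier 1 (∑ m, k m • α m) = ξ ∧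
        ∀ᵐ p : Td d × TT, h p = c * fourier 1 (∑ m, k m • p.1 m) := by
    intro ξ h hm hh
    rw [← Fs_pr] at hh
    rcases Pool.Agent.Helper23.AF.eig_om hind hfm hLL hnum ξ hm (hh.mono fun p hp _ => hp) with h0 | ⟨k, c, h1, h2⟩
    · left
      filter_upwards [h0, hom] with p h3 h4
      exact h3 h4
    · refine Or.inr ⟨k, c, h1, ?_⟩
      filter_upwards [h2, hom] with p h3 h4
      exact h3 h4
  refine ⟨?_, heig, ?_⟩
  · have hmp := Pool.Agent.Helper23.AF.Fs_mp (α := α) hfm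
    rw [Fs_pr] at hmp
    refine ⟨hmp, ⟨fun s hs hsi => ?_⟩⟩
    have h1 : ∀ᵐ p, s.indicator (fun _ => (1 : ℝ)) (Pool.Agent.Helper23.AF.Fs α (pr a b) p) =
        s.indicator (fun _ => (1 : ℝ)) p := by
      refine Eventually.of_forall fun p => ?_
      rw [Fs_pr]
      have h2 : (s.indicator (fun _ => (1 : ℝ)) (Fa α a b p)) = (Fa α a b ⁻¹' s).indicator (fun _ => (1 : ℝ)) p := rfl
      rw [h2, hsi]
    obtain ⟨Λ, hΛ⟩ := Pool.Agent.Helper23.AF.lam_const hind hfm hLL hnum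
      (measurable_const.indicator hs : Measurable (s.indicator fun _ => (1 : ℝ))) h1
    rw [Filter.eventuallyConst_set']
    by_cases h3 : Λ = 1
    · right
      filter_upwards [hΛ, hom] with p h4 h5
      have h6 := h4 h5
      rw [h3] at h6
      have : p ∈ s := by
        by_contra hn
        rw [indicator_of_notMem hn] at h6
        exact zero_ne_one h6
      exact eq_true this
    · left
      filter_upwards [hΛ, hom] with p h4 h5
      have h6 := h4 h5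
      have : p ∉ s := by
        intro hn
        rw [indicator_of_mem hn] at h6
        exact h3 h6.symm
      exact eq_false this
  · obtain ⟨Λ, hΛ⟩ := Pool.Agent.Helper23.AF.lam_const hind hfm hLL hnum hlm hli
    have h1 : ∀ᵐ p, lam p = Λ := by
      filter_upwards [hΛ, hom] with p h3 h4
      exact h3 h4
    refine ⟨Λ, ?_, lim_fd ?_⟩
    · obtain ⟨p, h2, h3⟩ := (h1.and hfx).exists
      rw [← h2]
      exact h3
    · filter_upwards [hlt', h1] with p h2 h3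
      rw [← h3]
      exact h2

end Pool.Agent.Helper95.AF
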